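import Pool.Agent.helper31.GPR.Spec

set_option autoImplicit false

namespace Pool.Agent.GPR

open Pool.Agent.helper25.QST

theorem ML_span {V : Type} [AddCommGroup V] [Module (ZMod 2) V] (R : Submodule (ZMod 2) V) (a b c : V)
    (ha : a ∈ R) (hb : b ∈ R) (hc : c ∈ R) : Submodule.span (ZMod 2) {a, b, c} ≤ R := by
  rw [Submodule.span_le]
  intro z hz
  rcases hz with rfl | rfl | rfl
  · exact ha
  · exact hb
  · exact hc

theorem ML (hMLA : MLA_stmt) (hMLB : MLB_stmt) : ML_stmt := by
  intro V _ _ S J V1 hA x h y hx hxh hy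
  obtain ⟨hyS, hyh, hyV⟩ := hy
  have a1 := hMLA V S J hA.lc x h y hx hxh hyS
  have a2 := hMLB V S J hA.lc y h hyS hyh
  have hxx : x + (x + h) + y = y + h := by
    have h2 : x + x = 0 := ZModModule.add_self x
    calc x + (x + h) + y = (x + x) + (y + h) := by abel
      _ = y + h := by rw [h2, zero_add]
  obtain ⟨e, he⟩ := hA.four x hx (x + h) hxh y hyS (by rw [hxx]; exact hyh)
  have a3 := he (J y h) hyV
  rw [hxx] at a3
  generalize hD : J x + J (x + h) = D at a1 a3 ⊢
  generalize hR : Submodule.span (ZMod 2) {D y, y} ⊔ Wh x h D = R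
  have rW : Wh x h D ≤ R := by rw [← hR]; exact le_sup_right
  have rS : Submodule.span (ZMod 2) {D y, y} ≤ R := by rw [← hR]; exact le_sup_left
  have mDy : D y ∈ R := rS (Submodule.subset_span (by simp))
  have my : y ∈ R := rS (Submodule.subset_span (by simp))
  have mx : x ∈ R := rW (Submodule.subset_span (by simp))
  have mh : h ∈ R := rW (Submodule.subset_span (by simp))
  have mDx : D x ∈ R := rW (Submodule.subset_span (by simp))
  have mDh : D h ∈ R := rW (Submodule.subset_span (by simp))
  have s1 : D y + J y h ∈ R := ML_span R x h y mx mh my a1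
  have s2 : D (D y + J y h) ∈ R :=
    ML_span (R.comap D) x h y mDx mDh mDy a1
  have v1 : J y h ∈ R := by
    have h3 := R.sub_mem s1 mDy
    rwa [add_sub_cancel_left] at h3
  have v2 : (J y + J (y + h)) (J y h) ∈ R := ML_span R (J y h) h y v1 mh my a2
  have v3 : (D + J y + J (y + h)) (J y h) + e • (J y h) ∈ R :=
    ML_span R x (x + h) y mx (R.add_mem mx mh) my a3
  have v4 : D (J y h) ∈ R := by
    have h3 := R.sub_mem (R.sub_mem v3 (R.smul_mem e v1)) v2
    have h4 : (D + J y + J (y + h)) (J y h) + e • (J y h) - e • (J y h) - (J y + J (y + h)) (J y h) =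
        D (J y h) := by
      simp only [LinearMap.add_apply]
      abel
    rwa [h4] at h3
  have v5 := R.sub_mem s2 v4
  rw [map_add, add_sub_cancel_right] at v5
  exact v5

end Pool.Agent.GPR
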