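import Pool.Agent.helper31.GPR.Spec

set_option autoImplicit false

namespace Pool.Agent.GPR

open Pool.Agent.helper25.QST

theorem TSP : TSP_stmt := by
  intro V _ _ _ V1 h d hh hd
  obtain ⟨C, hC⟩ := Submodule.exists_isCompl (Submodule.span (ZMod 2) {h})
  have h1 : Module.finrank (ZMod 2) (Submodule.span (ZMod 2) {h}) = 1 := finrank_span_singleton hh
  have h2 := Submodule.finrank_add_eq_of_isCompl hC
  have h3 := Submodule.finrank_sup_add_finrank_inf_eq V1 C
  have h4 : Module.finrank (ZMod 2) ↥(V1 ⊔ C) ≤ Module.finrank (ZMod 2) V := Submodule.finrank_le _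
  have h5 : d ≤ Module.finrank (ZMod 2) ↥(V1 ⊓ C) := by omega
  obtain ⟨v, hv⟩ := exists_linearIndependent_of_le_finrank h5
  have hv' : LinearIndependent (ZMod 2) (fun i => (v i : V)) :=
    hv.map' (Submodule.subtype _) (Submodule.ker_subtype _)
  refine ⟨Submodule.span (ZMod 2) (Set.range (fun i => (v i : V))), ?_, ?_, ?_⟩
  · rw [Submodule.span_le]
    rintro _ ⟨i, rfl⟩
    exact (v i).2.1
  · rw [finrank_span_eq_card hv', Fintype.card_fin]
  · intro hT
    have h6 : Submodule.span (ZMod 2) (Set.range (fun i => (v i : V))) ≤ C := by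
      rw [Submodule.span_le]
      rintro _ ⟨i, rfl⟩
      exact (v i).2.2
    have h7 : h ∈ Submodule.span (ZMod 2) {h} ⊓ C := ⟨Submodule.mem_span_singleton_self h, h6 hT⟩
    rw [hC.inf_eq_bot] at h7
    exact hh ((Submodule.mem_bot _).1 h7)

end Pool.Agent.GPR
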